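import Mathlib
import Pool.Agent.R503.SIC.Cliff

/-!
# Symmetries of even order of Weyl–Heisenberg SIC fiducials

If a Weyl–Heisenberg SIC fiducial in dimension `d` is an eigenvector of the operator
`|j⟩ ↦ |k j⟩` with `k ^ 2 = 1`, `k ≠ 1` (parity is the case `k = -1`), possibly multiplied by a
displacement operator, then `d + 1` is the square of an integer `t`, and `t - 1` is at most the
number of multiples of `k - 1` modulo `d`. For odd `d` these are all the Clifford unitaries of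
order two (modulo phases). So, for odd `d`, if the symmetry group of a fiducial in the Clifford group
has even order then `d + 1` is a square; if `d` is a prime power other than `3`, it has odd order.

Idea of the proof: the expectation of the symmetry `U` in the state `ψ` is a phase. On the other
hand `U` is a combination with coefficients of equal modulus of displacement operators `D_p` with
`U D_p U⁻¹ = D_p⁻¹` (up to phases), so that the overlaps `⟨ψ, D_p ψ⟩`, multiplied by their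
coefficients, are real up to a common phase, that is, they are `± 1 / √(d + 1)`. This gives a linear
equation with integer coefficients for `√(d + 1)`.
-/

set_option autoImplicit false

namespace Pool.Agent.Results.MP_1c78a5_mp.EvenOrderSymmetries

open Matrix

variable {d : ℕ} [NeZero d]

/-- `ω ^ x` for a residue `x` modulo `d`, where `ω = exp (2 π i / d)` -/
noncomputable def omegaPow (x : ZMod d) : ℂ :=
  Complex.exp (2 * Real.pi * Complex.I * (x.val : ℂ) / (d : ℂ))

/-- the displacement operator `X ^ a Z ^ b`, which maps `|j⟩` to `ω ^ (b j) |j + a⟩` -/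
noncomputable def displacement (a b : ZMod d) : Matrix (ZMod d) (ZMod d) ℂ :=
  Matrix.of fun i j => if i = j + a then omegaPow (b * j) else 0

/-- `ψ` is a Weyl–Heisenberg SIC fiducial: a unit vector with
`|⟨ψ, X ^ a Z ^ b ψ⟩| ^ 2 = 1 / (d + 1)` for all `(a, b) ≠ (0, 0)` -/
def IsFiducial (ψ : ZMod d → ℂ) : Prop :=
  ∑ j, ‖ψ j‖ ^ 2 = 1 ∧ ∀ a b : ZMod d, (a, b) ≠ (0, 0) →
    ‖star ψ ⬝ᵥ (displacement a b *ᵥ ψ)‖ ^ 2 = 1 / ((d : ℝ) + 1)

/-- `U` belongs to the Clifford group: it is unitary and conjugates displacement operators to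
displacement operators up to scalars -/
def IsClifford (U : Matrix (ZMod d) (ZMod d) ℂ) : Prop :=
  U ∈ unitaryGroup (ZMod d) ℂ ∧ ∀ a b : ZMod d, ∃ (a' b' : ZMod d) (c : ℂ),
    U * displacement a b * star U = c • displacement a' b'

/-- the number of multiples of `x` modulo `d` -/
def multiples (x : ZMod d) : ℕ := (Finset.univ.image fun w : ZMod d => x * w).card

theorem omegaPow_eq (x : ZMod d) : omegaPow x = R503.SIC.e x := by
  unfold omegaPow R503.SIC.e
  rw [ZMod.stdAddChar_apply, ZMod.toCircle_apply]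

theorem displacement_eq (a b : ZMod d) : displacement a b = R503.SIC.Dm a b := by
  ext i j
  simp only [displacement, R503.SIC.Dm, Matrix.of_apply, omegaPow_eq]

theorem overlap_eq (ψ : ZMod d → ℂ) (a b : ZMod d) :
    star ψ ⬝ᵥ (displacement a b *ᵥ ψ) = R503.SIC.ov ψ a b := by
  unfold R503.SIC.ov
  have h1 : ∀ i, (displacement a b *ᵥ ψ) i = omegaPow (b * (i - a)) * ψ (i - a) := by
    intro i
    rw [Matrix.mulVec, dotProduct, Finset.sum_eq_single (i - a)]
    · simp [displacement]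
    · intro j _ hj
      simp only [displacement, Matrix.of_apply]
      rw [if_neg (fun h => hj (by rw [h]; ring)), zero_mul]
    · intro h; exact absurd (Finset.mem_univ _) h
  rw [dotProduct]
  refine Fintype.sum_equiv (Equiv.subRight a) _ _ fun i => ?_
  rw [h1, omegaPow_eq, Pi.star_apply]
  simp

theorem fid_iff (ψ : ZMod d → ℂ) : IsFiducial ψ ↔ R503.SIC.Fid ψ := by
  unfold IsFiducial R503.SIC.Fid
  simp only [overlap_eq]

theorem card_img (k a : ZMod d) : (R503.SIC.img k a).card = multiples (k - 1) := by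
  unfold R503.SIC.img multiples
  have : (fun w : ZMod d => a + (k - 1) * w) = (fun z => a + z) ∘ fun w => (k - 1) * w := rfl
  rw [this, ← Finset.image_image, Finset.card_image_of_injective _ (add_right_injective a)]

theorem clifford {U : Matrix (ZMod d) (ZMod d) ℂ} (hU : IsClifford U) :
    IsUnit U ∧ R503.SIC.Nrm U := by
  have h1 : star U * U = 1 := (Matrix.mem_unitaryGroup_iff').1 hU.1
  have h2 : U * star U = 1 := (Matrix.mem_unitaryGroup_iff).1 hU.1
  refine ⟨⟨⟨U, star U, h2, h1⟩, rfl⟩, fun a b => ?_⟩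
  obtain ⟨a', b', c, h⟩ := hU.2 a b
  refine ⟨a', b', c, ?_⟩
  rw [← displacement_eq, ← displacement_eq, ← Matrix.smul_mul, ← h, mul_assoc, h1, mul_one]

theorem even_order (hd : Odd d) {ψ : ZMod d → ℂ} (hψ : IsFiducial ψ)
    {U : Matrix (ZMod d) (ZMod d) ℂ} (hU : IsClifford U) (hl : ∃ l : ℂ, U *ᵥ ψ = l • ψ) (m : ℕ)
    (hs : ∃ s : ℂ, U ^ (2 * m) = s • 1) (hm : ∀ s : ℂ, U ^ m ≠ s • 1) :
    ∃ t : ℕ, t ^ 2 = d + 1 := by
  obtain ⟨hunit, hn⟩ := clifford hU
  obtain ⟨l, hl⟩ := hl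
  obtain ⟨s, hs⟩ := hs
  obtain ⟨k, a, b, c, hk, hsym⟩ := R503.SIC.clifford hd ((fid_iff ψ).1 hψ) (hunit.pow m) (hn.pow m)
    (s := s) (by rw [← pow_add, ← two_mul, hs]) (R503.SIC.mulVec_pow hl m) hm
  obtain ⟨t, ht, -⟩ := R503.SIC.dilation ((fid_iff ψ).1 hψ) hsym hk
  exact ⟨t, ht⟩

/-- **Symmetries of even order.** (1) All `d`: if a Weyl–Heisenberg SIC fiducial `ψ` satisfies
`ψ (k j + a) = c ω ^ (b j) ψ j` for all `j`, where `k ^ 2 = 1` and `k ≠ 1`, then `d + 1 = t ^ 2` for
an integer `t`, and `t - 1` is at most the number of multiples of `k - 1` modulo `d`. (2) Odd `d`: if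
a fiducial is an eigenvector of a Clifford unitary `U` such that `U ^ (2 m)` is a scalar matrix but
`U ^ m` is not, for some `m`, then `d + 1` is a square. (3) For prime powers `d ≠ 3, 8` there are no
symmetries as in (1), and for odd ones none as in (2). -/
theorem result :
    (∀ (d : ℕ) [NeZero d] (ψ : ZMod d → ℂ), IsFiducial ψ → ∀ (k a b : ZMod d) (c : ℂ),
      k ^ 2 = 1 → k ≠ 1 → (∀ j, ψ (k * j + a) = c * omegaPow (b * j) * ψ j) →
      ∃ t : ℕ, t ^ 2 = d + 1 ∧ t ≤ multiples (k - 1) + 1) ∧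
    (∀ (d : ℕ) [NeZero d], Odd d → ∀ ψ : ZMod d → ℂ, IsFiducial ψ →
      ∀ U : Matrix (ZMod d) (ZMod d) ℂ, IsClifford U → (∃ l : ℂ, U *ᵥ ψ = l • ψ) →
      ∀ m : ℕ, (∃ s : ℂ, U ^ (2 * m) = s • 1) → (∀ s : ℂ, U ^ m ≠ s • 1) →
      ∃ t : ℕ, t ^ 2 = d + 1) ∧
    (∀ (d : ℕ) [NeZero d], IsPrimePow d → d ≠ 3 → d ≠ 8 → ∀ ψ : ZMod d → ℂ, IsFiducial ψ →
      (∀ (k a b : ZMod d) (c : ℂ), k ^ 2 = 1 →
        (∀ j, ψ (k * j + a) = c * omegaPow (b * j) * ψ j) → k = 1) ∧
      (Odd d → ∀ U : Matrix (ZMod d) (ZMod d) ℂ, IsClifford U → (∃ l : ℂ, U *ᵥ ψ = l • ψ) →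
        ∀ m : ℕ, (∃ s : ℂ, U ^ (2 * m) = s • 1) → ∃ s : ℂ, U ^ m = s • 1)) := by
  have h1 : ∀ (d : ℕ) [NeZero d] (ψ : ZMod d → ℂ), IsFiducial ψ → ∀ (k a b : ZMod d) (c : ℂ),
      k ^ 2 = 1 → k ≠ 1 → (∀ j, ψ (k * j + a) = c * omegaPow (b * j) * ψ j) →
      ∃ t : ℕ, t ^ 2 = d + 1 ∧ t ≤ multiples (k - 1) + 1 := by
    intro d _ ψ hψ k a b c hk hk1 h
    have hs : R503.SIC.Sym ψ k a b c :=
      ⟨by rw [← pow_two, hk], fun j => by rw [h j, omegaPow_eq]⟩
    have := R503.SIC.dilation ((fid_iff ψ).1 hψ) hs hk1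
    rwa [card_img] at this
  refine ⟨h1, ?_, ?_⟩
  · intro d _ hd ψ hψ U hU hl m hs hm
    exact even_order hd hψ hU hl m hs hm
  · intro d _ hd h3 h8 ψ hψ
    have hno : ∀ t : ℕ, t ^ 2 ≠ d + 1 := by
      intro t ht
      rcases R503.SIC.primePow ht hd with h | h
      · exact h3 h
      · exact h8 h
    refine ⟨?_, ?_⟩
    · intro k a b c hk h
      by_contra hk1
      obtain ⟨t, ht, -⟩ := h1 d ψ hψ k a b c hk hk1 h
      exact hno t ht
    · intro hodd U hU hl m hs
      by_contra hcon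
      push Not at hcon
      obtain ⟨t, ht⟩ := even_order hodd hψ hU hl m hs hcon
      exact hno t ht

end Pool.Agent.Results.MP_1c78a5_mp.EvenOrderSymmetries
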