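import Mathlib
import Pool.Agent.R503.SIC.Exc2

/-!
# How many of the equations of a Weyl–Heisenberg SIC fiducial have to be checked

A unit vector `ψ` in `ℂ ^ d` is a Weyl–Heisenberg SIC fiducial if the `d ^ 2 - 1` numbers
`|⟨ψ, X ^ a Z ^ b ψ⟩| ^ 2`, `(a, b) ≠ 0`, are all equal to `1 / (d + 1)`. We show that if `ψ` is not
a fiducial then at least `d` of these equations fail, at least `d / 2` of the numbers are larger and
at least `d / 2` are smaller than `1 / (d + 1)`; and that `ψ` is a fiducial already if the numbers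
are equal to one (unspecified) constant with the exception of at most `d - 2` of them. The last
bound is best possible for all primes `d ≥ 5`, by the vectors of Alltop. There is a quantitative
form: if the numbers outside an exceptional set of fewer than `d / 2` elements are at most
`1 / (d + 1) + δ` then all of them are close to `1 / (d + 1)`. Hence fiducials exist in dimension `d`
if and only if for every `δ > 0` there is a unit vector of this kind.

Idea of the proof: the function `(a, b) ↦ |⟨ψ, X ^ a Z ^ b ψ⟩| ^ 2` is mapped to `d` times itself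
by the symplectic Fourier transform, so that the difference of two such functions is concentrated
on a small set only if it vanishes (uncertainty principle).
-/

set_option autoImplicit false

namespace Pool.Agent.Results.MP_1c78a5_mp.ExceptionalDisplacements

open Matrix Finset

variable {d : ℕ} [NeZero d]

/-- `ω ^ x` for a residue `x` modulo `d`, where `ω = exp (2 π i / d)` -/
noncomputable def omegaPow (x : ZMod d) : ℂ :=
  Complex.exp (2 * Real.pi * Complex.I * (x.val : ℂ) / (d : ℂ))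

/-- the displacement operator `X ^ a Z ^ b`, which maps `|j⟩` to `ω ^ (b j) |j + a⟩` -/
noncomputable def displacement (a b : ZMod d) : Matrix (ZMod d) (ZMod d) ℂ :=
  Matrix.of fun i j => if i = j + a then omegaPow (b * j) else 0

/-- `|⟨ψ, X ^ a Z ^ b ψ⟩| ^ 2` for `p = (a, b)` -/
noncomputable def overlapSq (ψ : ZMod d → ℂ) (p : ZMod d × ZMod d) : ℝ :=
  ‖star ψ ⬝ᵥ (displacement p.1 p.2 *ᵥ ψ)‖ ^ 2

/-- unit vectors -/
def IsUnitVector (ψ : ZMod d → ℂ) : Prop := ∑ j, ‖ψ j‖ ^ 2 = 1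

/-- Weyl–Heisenberg SIC fiducials -/
def IsFiducial (ψ : ZMod d → ℂ) : Prop :=
  IsUnitVector ψ ∧ ∀ p : ZMod d × ZMod d, p ≠ 0 → overlapSq ψ p = 1 / ((d : ℝ) + 1)

theorem omegaPow_eq (x : ZMod d) : omegaPow x = R503.SIC.e x := by
  unfold omegaPow R503.SIC.e
  rw [ZMod.stdAddChar_apply, ZMod.toCircle_apply]

theorem overlap_eq (ψ : ZMod d → ℂ) (a b : ZMod d) :
    star ψ ⬝ᵥ (displacement a b *ᵥ ψ) = R503.SIC.ov ψ a b := by
  unfold R503.SIC.ov
  have h1 : ∀ i, (displacement a b *ᵥ ψ) i = omegaPow (b * (i - a)) * ψ (i - a) := by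
    intro i
    rw [Matrix.mulVec, dotProduct, Finset.sum_eq_single (i - a)]
    · simp [displacement]
    · intro j _ hj
      simp only [displacement, Matrix.of_apply]
      rw [if_neg (fun h => hj (by rw [h]; ring)), zero_mul]
    · intro h; exact absurd (Finset.mem_univ _) h
  rw [dotProduct]
  refine Fintype.sum_equiv (Equiv.subRight a) _ _ fun i => ?_
  rw [h1, omegaPow_eq, Pi.star_apply]
  simp

theorem overlapSq_eq (ψ : ZMod d → ℂ) (p : ZMod d × ZMod d) :
    overlapSq ψ p = R503.SIC.g ψ p := by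
  unfold overlapSq R503.SIC.g
  rw [overlap_eq]

theorem fid_iff (ψ : ZMod d → ℂ) : IsFiducial ψ ↔ R503.SIC.Fid ψ := by
  unfold IsFiducial IsUnitVector
  constructor
  · rintro ⟨h1, h2⟩
    exact (R503.SIC.fid_iff_g h1).2 fun p hp => by rw [← overlapSq_eq]; exact h2 p hp
  · intro h
    exact ⟨h.1, fun p hp => by rw [overlapSq_eq]; exact (R503.SIC.fid_iff_g h.1).1 h p hp⟩

theorem l1 {ψ : ZMod d → ℂ} (hψ : IsUnitVector ψ) (E : Finset (ZMod d × ZMod d)) :
    ((d : ℝ) - 2 * E.card) * ∑ p ∈ {0}ᶜ, |overlapSq ψ p - 1 / ((d : ℝ) + 1)| ≤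
      2 * d * ∑ p ∈ (insert 0 E)ᶜ, max (overlapSq ψ p - 1 / ((d : ℝ) + 1)) 0 ∧
    ((d : ℝ) - 2 * E.card) * ∑ p ∈ {0}ᶜ, |overlapSq ψ p - 1 / ((d : ℝ) + 1)| ≤
      2 * d * ∑ p ∈ (insert 0 E)ᶜ, max (1 / ((d : ℝ) + 1) - overlapSq ψ p) 0 := by
  have h := R503.SIC.l1_version hψ E
  have h0 : R503.SIC.g ψ 0 - R503.SIC.g₀ (0 : ZMod d × ZMod d) = 0 := by
    rw [R503.SIC.g_zero hψ, R503.SIC.g₀_zero, sub_self]
  have h0' : R503.SIC.g₀ (0 : ZMod d × ZMod d) - R503.SIC.g ψ 0 = 0 := by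
    rw [R503.SIC.g_zero hψ, R503.SIC.g₀_zero, sub_self]
  have h1 : ∑ p, |R503.SIC.g ψ p - R503.SIC.g₀ p| =
      ∑ p ∈ ({0} : Finset (ZMod d × ZMod d))ᶜ, |overlapSq ψ p - 1 / ((d : ℝ) + 1)| := by
    symm
    rw [← Finset.sum_subset (Finset.subset_univ ({0} : Finset (ZMod d × ZMod d))ᶜ)]
    · refine Finset.sum_congr rfl fun p hp => ?_
      rw [Finset.mem_compl, Finset.mem_singleton] at hp
      rw [overlapSq_eq, R503.SIC.g₀_ne hp]
    · intro p _ hp
      rw [Finset.mem_compl, Finset.mem_singleton, not_not] at hp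
      rw [hp, h0, abs_zero]
  have h2 : ∀ f : ZMod d × ZMod d → ℝ, f 0 = 0 →
      ∑ p ∈ Eᶜ, max (f p) 0 = ∑ p ∈ (insert 0 E)ᶜ, max (f p) 0 := by
    intro f hf
    symm
    apply Finset.sum_subset
    · exact Finset.compl_subset_compl.2 (Finset.subset_insert _ _)
    · intro p hp hp'
      rw [Finset.mem_compl] at hp
      rw [Finset.mem_compl, Finset.mem_insert, not_not] at hp'
      rcases hp' with h3 | h3
      · rw [h3, hf, max_self]
      · exact absurd h3 hp
  have h3 : ∀ p ∈ (insert (0 : ZMod d × ZMod d) E)ᶜ, p ≠ 0 := by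
    intro p hp h4
    rw [Finset.mem_compl, h4] at hp
    exact hp (Finset.mem_insert_self _ _)
  rw [h1, h2 _ h0, h2 _ h0'] at h
  refine ⟨h.1.trans_eq ?_, h.2.trans_eq ?_⟩
  · congr 1
    refine Finset.sum_congr rfl fun p hp => ?_
    rw [overlapSq_eq, R503.SIC.g₀_ne (h3 p hp)]
  · congr 1
    refine Finset.sum_congr rfl fun p hp => ?_
    rw [overlapSq_eq, R503.SIC.g₀_ne (h3 p hp)]

theorem of_sum_zero {ψ : ZMod d → ℂ} (hψ : IsUnitVector ψ)
    (h : ∑ p ∈ ({0} : Finset (ZMod d × ZMod d))ᶜ, |overlapSq ψ p - 1 / ((d : ℝ) + 1)| ≤ 0) :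
    IsFiducial ψ := by
  refine ⟨hψ, fun p hp => ?_⟩
  have h1 : |overlapSq ψ p - 1 / ((d : ℝ) + 1)| ≤ 0 := le_trans
    (Finset.single_le_sum (f := fun p => |overlapSq ψ p - 1 / ((d : ℝ) + 1)|)
      (fun _ _ => abs_nonneg _) (by rw [Finset.mem_compl, Finset.mem_singleton]; exact hp)) h
  have h2 := abs_eq_zero.1 (le_antisymm h1 (abs_nonneg _))
  linarith

/-- **The equations of a Weyl–Heisenberg SIC fiducial outside small exceptional sets.** Let `ψ` be a
unit vector in `ℂ ^ d`. (1) If, with at most `d - 2` exceptions, all numbers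
`|⟨ψ, X ^ a Z ^ b ψ⟩| ^ 2`, `(a, b) ≠ 0`, are equal to one constant then `ψ` is a fiducial. (2) If
`ψ` is not a fiducial then at least `d` of these numbers differ from `1 / (d + 1)`, at least `d / 2`
of them are larger, and at least `d / 2` are smaller. (3) Quantitative form. (4) The bound in (1) is
best possible for all primes `d ≥ 5`. (5) There is a fiducial in dimension `d` if and only if for
every `δ > 0` there is a unit vector such that, with fewer than `d / 2` exceptions, the numbers are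
at most `1 / (d + 1) + δ`. -/
theorem result :
    (∀ (d : ℕ) [NeZero d] (ψ : ZMod d → ℂ), IsUnitVector ψ →
      ∀ (c : ℝ) (E : Finset (ZMod d × ZMod d)), E.card + 2 ≤ d →
        (∀ p, p ∉ E → p ≠ 0 → overlapSq ψ p = c) → IsFiducial ψ) ∧
    (∀ (d : ℕ) [NeZero d] (ψ : ZMod d → ℂ), IsUnitVector ψ → ¬ IsFiducial ψ →
      d ≤ {p : ZMod d × ZMod d | p ≠ 0 ∧ overlapSq ψ p ≠ 1 / ((d : ℝ) + 1)}.ncard ∧
      d ≤ 2 * {p : ZMod d × ZMod d | p ≠ 0 ∧ 1 / ((d : ℝ) + 1) < overlapSq ψ p}.ncard ∧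
      d ≤ 2 * {p : ZMod d × ZMod d | p ≠ 0 ∧ overlapSq ψ p < 1 / ((d : ℝ) + 1)}.ncard) ∧
    (∀ (d : ℕ) [NeZero d] (ψ : ZMod d → ℂ), IsUnitVector ψ → ∀ E : Finset (ZMod d × ZMod d),
      ((d : ℝ) - 2 * E.card) * ∑ p ∈ {0}ᶜ, |overlapSq ψ p - 1 / ((d : ℝ) + 1)| ≤
        2 * d * ∑ p ∈ (insert 0 E)ᶜ, max (overlapSq ψ p - 1 / ((d : ℝ) + 1)) 0 ∧
      ((d : ℝ) - 2 * E.card) * ∑ p ∈ {0}ᶜ, |overlapSq ψ p - 1 / ((d : ℝ) + 1)| ≤
        2 * d * ∑ p ∈ (insert 0 E)ᶜ, max (1 / ((d : ℝ) + 1) - overlapSq ψ p) 0) ∧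
    (∀ (d : ℕ) [NeZero d], d.Prime → 5 ≤ d → ∃ (ψ : ZMod d → ℂ) (E : Finset (ZMod d × ZMod d)),
      IsUnitVector ψ ∧ E.card = d - 1 ∧ (∀ p, p ∉ E → p ≠ 0 → overlapSq ψ p = 1 / (d : ℝ)) ∧
        ¬ IsFiducial ψ) ∧
    (∀ (d : ℕ) [NeZero d], (∃ ψ : ZMod d → ℂ, IsFiducial ψ) ↔ ∀ δ : ℝ, 0 < δ →
      ∃ (ψ : ZMod d → ℂ) (E : Finset (ZMod d × ZMod d)), IsUnitVector ψ ∧ 2 * E.card < d ∧
        ∀ p, p ∉ E → p ≠ 0 → overlapSq ψ p ≤ 1 / ((d : ℝ) + 1) + δ) := by
  refine ⟨?_, ?_, fun d _ ψ hψ E => l1 hψ E, ?_, ?_⟩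
  · intro d _ ψ hψ c E hE hc
    rw [fid_iff]
    exact R503.SIC.exact_version hψ E c (Or.inl (by omega)) fun p h1 h2 => by
      rw [← overlapSq_eq]; exact hc p h1 h2
  · intro d _ ψ hψ hn
    classical
    refine ⟨?_, ?_, ?_⟩
    · by_contra hcon
      push Not at hcon
      apply hn
      rw [fid_iff]
      have hfin : {p : ZMod d × ZMod d | p ≠ 0 ∧ overlapSq ψ p ≠ 1 / ((d : ℝ) + 1)}.Finite :=
        Set.toFinite _
      refine R503.SIC.exact_version hψ hfin.toFinset (1 / ((d : ℝ) + 1))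
        (Or.inr ⟨?_, ?_, rfl⟩) ?_
      · rwa [← Set.ncard_eq_toFinset_card]
      · intro h
        rw [Set.Finite.mem_toFinset] at h
        exact h.1 rfl
      · intro p h1 h2
        rw [Set.Finite.mem_toFinset, Set.mem_setOf_eq, not_and, not_not] at h1
        rw [← overlapSq_eq]
        exact h1 h2
    · by_contra hcon
      push Not at hcon
      apply hn
      have hfin : {p : ZMod d × ZMod d | p ≠ 0 ∧ 1 / ((d : ℝ) + 1) < overlapSq ψ p}.Finite :=
        Set.toFinite _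
      have h1 := (l1 hψ hfin.toFinset).1
      rw [Set.ncard_eq_toFinset_card _ hfin] at hcon
      have h2 : ∑ p ∈ (insert 0 hfin.toFinset)ᶜ, max (overlapSq ψ p - 1 / ((d : ℝ) + 1)) 0 = 0 := by
        apply Finset.sum_eq_zero
        intro p hp
        rw [Finset.mem_compl, Finset.mem_insert, not_or, Set.Finite.mem_toFinset, Set.mem_setOf_eq,
          not_and, not_lt] at hp
        have := hp.2 hp.1
        exact max_eq_right (by linarith)
      rw [h2, mul_zero] at h1
      apply of_sum_zero hψ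
      have h3 : (0 : ℝ) < (d : ℝ) - 2 * hfin.toFinset.card := by
        have : ((2 * hfin.toFinset.card : ℕ) : ℝ) < d := by exact_mod_cast hcon
        push_cast at this
        linarith
      by_contra h4
      push Not at h4
      have := mul_pos h3 h4
      linarith
    · by_contra hcon
      push Not at hcon
      apply hn
      have hfin : {p : ZMod d × ZMod d | p ≠ 0 ∧ overlapSq ψ p < 1 / ((d : ℝ) + 1)}.Finite :=
        Set.toFinite _
      have h1 := (l1 hψ hfin.toFinset).2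
      rw [Set.ncard_eq_toFinset_card _ hfin] at hcon
      have h2 : ∑ p ∈ (insert 0 hfin.toFinset)ᶜ, max (1 / ((d : ℝ) + 1) - overlapSq ψ p) 0 = 0 := by
        apply Finset.sum_eq_zero
        intro p hp
        rw [Finset.mem_compl, Finset.mem_insert, not_or, Set.Finite.mem_toFinset, Set.mem_setOf_eq,
          not_and, not_lt] at hp
        have := hp.2 hp.1
        exact max_eq_right (by linarith)
      rw [h2, mul_zero] at h1
      apply of_sum_zero hψ
      have h3 : (0 : ℝ) < (d : ℝ) - 2 * hfin.toFinset.card := by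
        have : ((2 * hfin.toFinset.card : ℕ) : ℝ) < d := by exact_mod_cast hcon
        push_cast at this
        linarith
      by_contra h4
      push Not at h4
      have := mul_pos h3 h4
      linarith
  · intro d _ hp hp5
    obtain ⟨ψ, E, h1, h2, h3, h4⟩ := R503.SIC.alltop_sharp hp hp5
    exact ⟨ψ, E, h1, h2, fun p hp h0 => by rw [overlapSq_eq]; exact h3 p hp h0,
      fun h => h4 ((fid_iff ψ).1 h)⟩
  · intro d _
    have h := R503.SIC.exist_iff (d := d)
    simp only [fid_iff, overlapSq_eq]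
    exact h

end Pool.Agent.Results.MP_1c78a5_mp.ExceptionalDisplacements
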