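import Mathlib
import Pool.Agent.R848.SIC.Abs

/-!
# MP_1c78a5_mp: parity-symmetric Weyl–Heisenberg SIC fiducials

A Weyl–Heisenberg covariant SIC fiducial `ψ ∈ ℂ^d`, `d ≥ 4`, which is an eigenvector of the parity
operator `P|j⟩ = |-j⟩`, or of a displaced parity operator `X^{2m} Z^{2k} P`, can exist only if
`d ∈ {8, 24, 48}`.  In particular, in odd dimension `d ≥ 5` no fiducial is an eigenvector of any
displaced parity operator `X^p Z^q P`.
-/

namespace Pool.Agent.Results.MP_1c78a5_mp.ParitySymmetry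

open scoped BigOperators

/-- `ω = e^{2πi/d}`. -/
noncomputable def omega (d : ℕ) : ℂ := Complex.exp (2 * Real.pi * Complex.I / d)

/-- The shift operator `X|j⟩ = |j+1⟩` on `ℂ^d` (functions on `ZMod d`): `(Xψ)(j) = ψ(j-1)`. -/
def X {d : ℕ} (ψ : ZMod d → ℂ) : ZMod d → ℂ := fun j => ψ (j - 1)

/-- The clock operator `Z|j⟩ = ω^j|j⟩`. -/
noncomputable def Z {d : ℕ} (ψ : ZMod d → ℂ) : ZMod d → ℂ := fun j => omega d ^ j.val * ψ j

/-- The displacement operator `D_{a,b} = X^a Z^b`. -/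
noncomputable def D {d : ℕ} (a b : ZMod d) (ψ : ZMod d → ℂ) : ZMod d → ℂ :=
  X^[a.val] (Z^[b.val] ψ)

/-- The inner product of `ℂ^d`, conjugate linear in the first variable. -/
noncomputable def ip {d : ℕ} [NeZero d] (φ ψ : ZMod d → ℂ) : ℂ :=
  ∑ j, starRingEnd ℂ (φ j) * ψ j

/-- `ψ` is a Weyl–Heisenberg covariant SIC fiducial: a unit vector with
`|⟨ψ|D_{a,b}|ψ⟩|² = 1/(d+1)` for all `(a,b) ≠ (0,0)`. -/
def IsSICFiducial {d : ℕ} [NeZero d] (ψ : ZMod d → ℂ) : Prop :=
  ip ψ ψ = 1 ∧ ∀ a b : ZMod d, (a, b) ≠ (0, 0) → ‖ip ψ (D a b ψ)‖ ^ 2 = 1 / ((d : ℝ) + 1)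

/-- The parity operator `P|j⟩ = |-j⟩`. -/
def P {d : ℕ} (ψ : ZMod d → ℂ) : ZMod d → ℂ := fun j => ψ (-j)

variable {d : ℕ} [NeZero d]

omit [NeZero d] in
theorem X_iter (k : ℕ) (φ : ZMod d → ℂ) (j : ZMod d) : (X^[k] φ) j = φ (j - k) := by
  induction k generalizing φ with
  | zero => simp
  | succ k ih =>
    rw [Function.iterate_succ_apply, ih]
    simp only [X]
    congr 1
    push_cast
    ring

theorem omega_eq : omega d = ZMod.stdAddChar (1 : ZMod d) := by
  have := ZMod.stdAddChar_coe (N := d) 1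
  rw [omega]
  simpa using this.symm

theorem Z_apply (φ : ZMod d → ℂ) (j : ZMod d) : Z φ j = ZMod.stdAddChar j * φ j := by
  rw [Z, omega_eq]
  congr 1
  have := R848.SIC.std_pow j 1
  rw [one_mul, Nat.cast_one, one_mul] at this
  exact this

theorem Z_iter (k : ℕ) (φ : ZMod d → ℂ) (j : ZMod d) :
    (Z^[k] φ) j = ZMod.stdAddChar ((k : ZMod d) * j) * φ j := by
  induction k generalizing φ with
  | zero => simp
  | succ k ih =>
    rw [Function.iterate_succ_apply, ih, Z_apply, ← mul_assoc, ← AddChar.map_add_eq_mul]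
    congr 2
    push_cast
    ring

theorem D_apply (a b : ZMod d) (φ : ZMod d → ℂ) (j : ZMod d) :
    D a b φ j = ZMod.stdAddChar (b * (j - a)) * φ (j - a) := by
  rw [D, X_iter, Z_iter, ZMod.natCast_zmod_val, ZMod.natCast_zmod_val]

theorem ip_D (ψ : ZMod d → ℂ) (a b : ZMod d) :
    ip ψ (D a b ψ) = ∑ j, ZMod.stdAddChar (b * (j - a)) * (starRingEnd ℂ (ψ j) * ψ (j - a)) := by
  rw [ip]
  apply Finset.sum_congr rfl
  intro j _
  rw [D_apply]; ring

theorem norm_chi (z : ZMod d) : ‖ZMod.stdAddChar z‖ = 1 := by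
  rw [ZMod.stdAddChar_apply]; exact Circle.norm_coe _

theorem ip_rr (ψ : ZMod d → ℂ) (c b : ZMod d) :
    ip ψ (D (2 * c) b ψ) = ZMod.stdAddChar (-(b * c)) * R848.SIC.rr ψ c b := by
  rw [ip_D, R848.SIC.rr, Finset.mul_sum, ← Equiv.sum_comp (Equiv.addRight c)]
  apply Finset.sum_congr rfl
  intro j _
  simp only [Equiv.coe_addRight]
  have e1 : j + c - 2 * c = j - c := by ring
  rw [e1]
  have key : ZMod.stdAddChar (b * (j - c)) =
      (ZMod.stdAddChar (-(b * c)) * ZMod.stdAddChar (b * j) : ℂ) := by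
    rw [← AddChar.map_add_eq_mul]
    congr 1
    ring
  rw [key, mul_assoc]

theorem norm_rr (ψ : ZMod d → ℂ) (c b : ZMod d) :
    ‖R848.SIC.rr ψ c b‖ = ‖ip ψ (D (2 * c) b ψ)‖ := by
  rw [ip_rr, norm_mul, norm_chi, one_mul]

theorem part1 (hd : 4 ≤ d) (ψ : ZMod d → ℂ) (hψ : IsSICFiducial ψ) (lam : ℂ)
    (hlam : P ψ = lam • ψ) : d = 8 ∨ d = 24 ∨ d = 48 := by
  have hpar : ∀ j, ψ (-j) = lam * ψ j := fun j => congrFun hlam j
  have hne : ∃ j, ψ j ≠ 0 := by
    by_contra h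
    push Not at h
    have := hψ.1
    simp [ip, h] at this
  obtain ⟨j0, hj0⟩ := hne
  have hl2 : lam * lam = 1 := by
    have h1 : ψ j0 = lam * (lam * ψ j0) := by
      have h2 := hpar (-j0)
      rw [neg_neg] at h2
      rw [← hpar j0, ← h2]
    have h3 : (lam * lam - 1) * ψ j0 = 0 := by linear_combination -h1
    have h4 := (mul_eq_zero.1 h3).resolve_right hj0
    linear_combination h4
  obtain ⟨ε, hε, hεl⟩ : ∃ ε : ℤ, (ε = 1 ∨ ε = -1) ∧ lam = ε := by
    rcases mul_self_eq_one_iff.1 hl2 with h | h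
    · exact ⟨1, Or.inl rfl, by rw [h]; simp⟩
    · exact ⟨-1, Or.inr rfl, by rw [h]; simp⟩
  have hconj : starRingEnd ℂ lam = lam := by rw [hεl]; simp
  have hreal := R848.SIC.rr_real ψ lam hpar (by rw [hconj]; exact hl2)
  have hρ : ∀ c b, R848.SIC.rr ψ c b = ((R848.SIC.rr ψ c b).re : ℂ) := by
    intro c b
    exact (Complex.conj_eq_iff_re.1 (hreal c b)).symm
  refine R848.SIC.abstract_main hd (fun c b => (R848.SIC.rr ψ c b).re) ε hε ?_ ?_ ?_
  · intro c b h
    have h1 : ((R848.SIC.rr ψ c b).re) ^ 2 = ‖R848.SIC.rr ψ c b‖ ^ 2 := by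
      rw [hρ c b, Complex.norm_real, Real.norm_eq_abs, sq_abs]
      simp
    rw [h1, norm_rr]
    apply hψ.2
    intro h2
    apply h
    exact ⟨(Prod.ext_iff.1 h2).1, (Prod.ext_iff.1 h2).2⟩
  · intro c hc
    have h1 : R848.SIC.rr ψ c 0 = 1 := by
      have h2 := ip_rr ψ c 0
      rw [zero_mul, neg_zero, AddChar.map_zero_eq_one, one_mul] at h2
      rw [← h2, hc]
      rw [← hψ.1]
      congr 1
      funext j
      rw [D_apply]
      simp
    simp only [h1, Complex.one_re]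
  · intro x y
    have h1 := R848.SIC.rr_dual ψ lam hpar x y
    simp only [← hρ]
    rw [h1, hconj, hεl]
    ring

/-- translating a fiducial gives a fiducial -/
theorem translate (ψ : ZMod d → ℂ) (hψ : IsSICFiducial ψ) (m β : ZMod d) :
    IsSICFiducial (fun j => ZMod.stdAddChar (β * j) * ψ (j + m)) := by
  have hconj : ∀ z : ZMod d, starRingEnd ℂ (ZMod.stdAddChar z) = ZMod.stdAddChar (-z) := by
    intro z
    rw [AddChar.map_neg_eq_conj]
  have hip : ∀ a b : ZMod d,
      ip (fun j => ZMod.stdAddChar (β * j) * ψ (j + m))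
        (D a b (fun j => ZMod.stdAddChar (β * j) * ψ (j + m))) =
      ZMod.stdAddChar (-(β * a) - b * m) * ip ψ (D a b ψ) := by
    intro a b
    rw [ip_D, ip_D, Finset.mul_sum, ← Equiv.sum_comp (Equiv.subRight m)]
    apply Finset.sum_congr rfl
    intro j _
    simp only [Equiv.subRight_apply, map_mul, hconj]
    have e1 : j - m + m = j := by ring
    have e2 : j - m - a + m = j - a := by ring
    rw [e1, e2]
    have key : ZMod.stdAddChar (b * (j - m - a)) * ZMod.stdAddChar (-(β * (j - m))) *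
        ZMod.stdAddChar (β * (j - m - a)) =
        ZMod.stdAddChar (-(β * a) - b * m) * ZMod.stdAddChar (b * (j - a)) := by
      rw [← AddChar.map_add_eq_mul, ← AddChar.map_add_eq_mul, ← AddChar.map_add_eq_mul]
      congr 1
      ring
    linear_combination (starRingEnd ℂ (ψ j) * ψ (j - a)) * key
  have hD0 : ∀ φ : ZMod d → ℂ, D 0 0 φ = φ := by
    intro φ
    funext j
    rw [D_apply]
    simp
  constructor
  · have h1 := hip 0 0
    rw [hD0, hD0] at h1
    rw [h1, hψ.1]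
    simp
  · intro a b hab
    rw [hip, norm_mul, norm_chi, one_mul]
    exact hψ.2 a b hab

theorem part2 (hd : 4 ≤ d) (ψ : ZMod d → ℂ) (hψ : IsSICFiducial ψ) (m k : ZMod d)
    (lam : ℂ) (hlam : D (2 * m) (2 * k) (P ψ) = lam • ψ) : d = 8 ∨ d = 24 ∨ d = 48 := by
  have hpar : ∀ j, ZMod.stdAddChar ((2 * k) * (j - 2 * m)) * ψ (-(j - 2 * m)) = lam * ψ j := by
    intro j
    have := congrFun hlam j
    rw [D_apply] at this
    exact this
  set φ : ZMod d → ℂ := fun j => ZMod.stdAddChar ((-k) * j) * ψ (j + m) with hφ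
  have hφpar : P φ = (lam * ZMod.stdAddChar ((2 * k) * m)) • φ := by
    funext j
    simp only [P, hφ, Pi.smul_apply, smul_eq_mul]
    have h1 := hpar (j + m)
    have e1 : -(j + m - 2 * m) = -j + m := by ring
    rw [e1] at h1
    have h3 : ZMod.stdAddChar (-((2 * k) * (j + m - 2 * m))) *
        ZMod.stdAddChar ((2 * k) * (j + m - 2 * m)) = (1 : ℂ) := by
      rw [← AddChar.map_add_eq_mul, neg_add_cancel, AddChar.map_zero_eq_one]
    have h4 : ψ (-j + m) = ZMod.stdAddChar (-((2 * k) * (j + m - 2 * m))) * (lam * ψ (j + m)) := by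
      rw [← h1, ← mul_assoc, h3, one_mul]
    have h5 : ZMod.stdAddChar (-k * -j) * ZMod.stdAddChar (-((2 * k) * (j + m - 2 * m))) =
        ZMod.stdAddChar ((2 * k) * m) * (ZMod.stdAddChar (-k * j) : ℂ) := by
      rw [← AddChar.map_add_eq_mul, ← AddChar.map_add_eq_mul]
      congr 1
      ring
    rw [h4]
    linear_combination (lam * ψ (j + m)) * h5
  exact part1 hd φ (translate ψ hψ m (-k)) _ hφpar

/-- **Main theorem.** Let `d ≥ 4` and let `ψ` be a Weyl–Heisenberg covariant SIC fiducial in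
dimension `d` that is an eigenvector of a displaced parity operator `X^p Z^q P` with `p = 2m`,
`q = 2k` in `ZMod d` (when `d` is odd, this is every displaced parity operator).
Then `d ∈ {8, 24, 48}`. -/
theorem result (d : ℕ) [NeZero d] (hd : 4 ≤ d) (ψ : ZMod d → ℂ) (hψ : IsSICFiducial ψ)
    (m k : ZMod d) (lam : ℂ) (hlam : D (2 * m) (2 * k) (P ψ) = lam • ψ) :
    d = 8 ∨ d = 24 ∨ d = 48 :=
  part2 hd ψ hψ m k lam hlam

end Pool.Agent.Results.MP_1c78a5_mp.ParitySymmetry
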